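import Pool.Agent.TH563.V.FinalV
import Pool.Agent.N561.AX.Stm

/-!
# Project AX (helper561), job AX9 (helper614): the hubs of weight zero as packages, with expansions

The expansions are contained in `hub_pkg`, `kidz`, `pz_zero`, `pz_succ` of the starting library.
-/

set_option autoImplicit false
set_option maxHeartbeats 1000000

namespace Pool.Agent.N614.AX

open Finset Filter Topology Metric
open Pool.Agent.W711.HT hiding XX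
open Pool.Agent.TH563.UV
open Pool.Agent.TH563.V
open Pool.Agent.TH563.Z hiding gd
open Pool.Agent.W293.HT
open Pool.Agent.W719.AX (UX GX KXD cv)
open Pool.Agent.N561.AX
open scoped Real

/-- products at the hub, with expansions -/
def PX (k : ℕ) (h : HP) (S : ℂ → ℂ → ℂ) (j m : ℕ) (X : ℕ → ℂ → ℂ) (Φ : ℂ → ℂ) : Prop :=
  ∃ (PL : ℕ → ℂ → ℂ) (f : ℂ) (A : ℕ → ℂ → ℂ), 0 ≤ f.re ∧ HubQ k h S j X PL f Φ ∧
    GXZ (et k) h.ρ₃ h.τ₃ m PL Φ A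

/-- a neighbour of the hub, with expansions -/
def CX (k : ℕ) (h : HP) (S : ℂ → ℂ → ℂ) (m : ℕ) (Y : ℕ → ℂ → ℂ) (Φ : ℂ → ℂ) : Prop :=
  ∃ (YL : ℕ → ℂ → ℂ) (f₀ : ℂ) (A : ℕ → ℂ → ℂ), 0 ≤ f₀.re ∧
    ChZ (et k) h.ε h.ρ' h.τ' h.κ h.x₀ h.δ h.ε₁ S Y YL f₀ Φ ∧ GXZ (et k) h.ρ₃ h.τ₃ m YL Φ A

lemma px_zero (k : ℕ) (h : HP) (S : ℂ → ℂ → ℂ) : PX k h S 0 0 (fun _ _ => 1) (fun _ => 0) := by
  obtain ⟨A, hA⟩ := gxz_one (et k) h.ρ₃ h.τ₃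
  exact ⟨fun _ _ => 1, 0, A, le_rfl, hub_zero _ _ _ _ _ _ _ _ _, hA⟩

lemma px_succ (hR : S_REM) {k : ℕ} {h : HP} {S : ℂ → ℂ → ℂ} (hε : 0 < h.ε ∧ h.ε < 1 / 4)
    (hx₀ : 0 < h.x₀) (hx : h.x₀ < 2 * π * h.ε) {j m m' : ℕ} {X Y : ℕ → ℂ → ℂ} {Φ Φ' : ℂ → ℂ}
    (h1 : PX k h S j m X Φ) (h2 : CX k h S m' Y Φ') :
    PX k h S (j + 1) (m + m') (fun N φ => X N φ * Y N φ) (fun φ => Φ φ + Φ' φ) := by
  obtain ⟨PL, f, A, a0, a1, a2⟩ := h1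
  obtain ⟨YL, f₀, A', b0, b1, b2⟩ := h2
  obtain ⟨A'', hA''⟩ := gxz_mul a2 b2
  refine ⟨_, f + f₀, A'', ?_, hub_succ hR hε hx₀ hx a1 b1, hA''⟩
  rw [Complex.add_re]
  exact add_nonneg a0 b0

/-- the package of a small hub, with expansions (as `hub_pkg`) -/
theorem pkgx {ρs : ℝ} (hρs : 0 < ρs) (hbnd : BND ρs) {k : ℕ} (hk : 3 ≤ k) {h : HP}
    {S dl : ℂ → ℂ → ℂ} {g ρ τ c' ρb τb : ℝ} {Az : ℕ → ℂ × ℂ → ℂ}
    (hh : HPk k h S dl g ρs ρ τ c' ρb τb Az) :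
    ∃ (U : Set ℂ) (P : ℕ → ℕ → (ℕ → ℂ → ℂ) → (ℂ → ℂ) → Prop)
      (C : ℕ → (ℕ → ℂ → ℂ) → (ℂ → ℂ) → Prop) (r₂ c₁ C₁ : ℝ),
      KPX k 0 (et k * Complex.I) g S U P C r₂ c₁ C₁ ∧ RTX k 0 (et k * Complex.I) g U P := by
  obtain ⟨aM, cM, CM, haM, hcM, hCM, hst⟩ := hh.step
  obtain ⟨r, C', hS, hr1, hr2⟩ := hh.kdz.sdz
  have hρ := hh.kdz.hρ.1
  have hτ := hh.kdz.hτ.1
  have hτρ := hh.kdz.hτ.2
  have hρ' := hh.kdz.hρ'.1
  obtain ⟨hτ', hτρ', hτη⟩ := hh.kdz.hτ'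
  have hρb := hh.kxz.hρ
  have hτb := hh.kxz.hτ
  have hc' := hh.kdz.hc
  have hκ := hh.kdz.hκ.1
  obtain ⟨r₂, hr0, hra, hrρ, hrτ, hrρb, hrτb⟩ : ∃ r₂ : ℝ, 0 < r₂ ∧ r₂ ≤ aM ∧ r₂ ≤ ρ ∧ r₂ ≤ τ ∧
      r₂ ≤ ρb ∧ r₂ ≤ τb := by
    refine ⟨min aM (min (min ρ τ) (min ρb τb)), ?_, ?_, ?_, ?_, ?_, ?_⟩
    · exact lt_min haM (lt_min (lt_min hρ hτ) (lt_min hρb hτb))
    · exact min_le_left _ _
    · exact (min_le_right _ _).trans ((min_le_left _ _).trans (min_le_left _ _))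
    · exact (min_le_right _ _).trans ((min_le_left _ _).trans (min_le_right _ _))
    · exact (min_le_right _ _).trans ((min_le_right _ _).trans (min_le_left _ _))
    · exact (min_le_right _ _).trans ((min_le_right _ _).trans (min_le_right _ _))
  refine ⟨Rz (et k) (3 * h.ρ') (3 * h.τ'), PX k h S, CX k h S, r₂, cM, CM,
    ⟨hr0, hcM, hCM, px_zero k h S, ?_, ?_, ?_⟩, ?_⟩
  · -- products
    intro j m m' X Y Φ Φ' h1 h2
    exact px_succ Pool.Agent.TH653.J366.rem hh.kdz.hε hh.x₀ hh.x₀' h1 h2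
  · -- the step
    intro a₀ b₀ hb0 hba ha3
    have ha0 : 0 < a₀ := hb0.trans_le hba
    have ha2 : a₀ ≤ r₂ := by linarith
    obtain ⟨κM, hκM, hstep⟩ := hst a₀ b₀ ha0 (ha2.trans hra) hb0 ((hba.trans ha2).trans hra) hba
    refine ⟨κM, hκM, ?_⟩
    rintro m X Φ ⟨PL, f, A, a0, a1, a2⟩
    obtain ⟨F, zs, A', b1, b2, b3⟩ := hstep κM cM CM a₀ b₀ le_rfl le_rfl le_rfl le_rfl le_rfl
      X PL f Φ m A a1 a0 a2
    refine ⟨F, zs, A', b1, b2, ?_⟩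
    intro ψ hψ
    obtain ⟨z1, z2, z3, z4, z5⟩ := b3 ψ hψ
    have a1' : HubZ (et k) h.ε h.ρ' h.τ' h.κ h.x₀ h.δ h.ε₁ S (k - 1) X PL f Φ := a1
    have hψr : ψ ∈ Rc r r := Rc_mono (by linarith) (by linarith) hψ
    have hzr : zs ψ ∈ Rz (et k) r r := Rz_mono hr2 (by linarith) z2
    refine ⟨z1, z2, ?_, ?_, z5⟩
    · have h5 : HasDerivAt (fun w => S ψ w) (deriv (fun w => S ψ w) (zs ψ)) (zs ψ) :=
        (hS.sder2 ψ hψr (zs ψ) hzr).differentiableAt.hasDerivAt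
      have h4 : HasDerivAt Φ (deriv Φ (zs ψ)) (zs ψ) :=
        (a1'.Fan.differentiableAt ((isOpen_Rz _ _ _).mem_nhds z2)).hasDerivAt
      have h6 : HasDerivAt (qz fun w => Φ w + S ψ w)
          (Complex.I + (deriv Φ (zs ψ) + deriv (fun w => S ψ w) (zs ψ))) (zs ψ) := by
        unfold qz
        have h7 : HasDerivAt (fun w : ℂ => Complex.I * w) Complex.I (zs ψ) := by
          simpa using (hasDerivAt_id (zs ψ)).const_mul Complex.I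
        exact h7.add (h4.add h5)
      rw [h6.deriv] at z3
      rw [← z3]
      push_cast
      ring
    · rw [z4]
      simp only [qz, qq]
      push_cast
      ring
  · -- the children
    intro e r₀ κ₁ c C'' he0 he3 hr₀0 hκ₁0 hc0 hC0
    have he2 : e ≤ r₂ := by linarith
    obtain ⟨Ce, hE⟩ := ed_z hh.kdz
    obtain ⟨κz, hκz0, hκz1, hκz2⟩ : ∃ κz : ℝ, 0 < κz ∧ κz ≤ h.κ ∧ κz < c' / 2 * e ^ 2 := by
      refine ⟨min h.κ (c' / 4 * e ^ 2), lt_min hκ (by positivity), min_le_left _ _, ?_⟩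
      have h1 : min h.κ (c' / 4 * e ^ 2) ≤ c' / 4 * e ^ 2 := min_le_right _ _
      have h2 : 0 < c' * e ^ 2 := by positivity
      linarith
    have hE2 := ed_restrict hE he0 (he2.trans hrρ) he0 (he2.trans hrτ) le_rfl hκz0 hκz1 hκz2
    obtain ⟨r₀', hr₀'0, hr₀'1, hr₀'2⟩ : ∃ r₀' : ℝ, 0 < r₀' ∧ r₀' ≤ r₀ ∧ r₀' < min e e / 4 := by
      rw [min_self]
      refine ⟨min r₀ (e / 8), lt_min hr₀0 (by positivity), min_le_left _ _, ?_⟩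
      have : min r₀ (e / 8) ≤ e / 8 := min_le_right _ _
      linarith
    obtain ⟨K, hK0, hkid⟩ := kidz Pool.Agent.TH761.J1737.vf vt_mw Pool.Agent.TH921.J1739.vfx
      Pool.Agent.TH416.J1740.vtx Pool.Agent.TH653.J366.half hρs hbnd hh.kdz hE2 hh.x₀ hh.δ hh.ε₁
      hr₀'0 hκ₁0 hc0 hC0 hh.kxz he0 he0 le_rfl le_rfl (he2.trans hrρb) (he2.trans hrτb) hh.h3
      hh.h4 hr₀'2
    refine ⟨K, hK0, ?_⟩
    intro t m X F A hX hA b a' hbig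
    obtain ⟨YL, f₀, F', zs, A', b0, b1, b2, b3⟩ := hkid t m X F A hX hA b a' hbig
    refine ⟨F', zs, ⟨YL, f₀, A', b0, b1, b2⟩, ?_⟩
    intro φ hφ
    obtain ⟨p1, p2, p3, p4, p5, p6⟩ := b3 φ hφ
    refine ⟨p1, p2.trans hr₀'1, p3, fun hb => ?_, p5, p6⟩
    obtain ⟨y1, y2⟩ := p4 hb
    exact ⟨⟨y1.mem, y1.im, y1.sm.trans hr₀'1⟩, y2⟩
  · -- the last step
    rintro m X Φ ⟨PL, f, A, -, a1, a2⟩
    obtain ⟨z, y, z1, z2, z3, z4, z5⟩ := hh.root X PL f Φ m A a1 a2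
    have a1' : HubZ (et k) h.ε h.ρ' h.τ' h.κ h.x₀ h.δ h.ε₁ S k X PL f Φ := a1
    refine ⟨z, y, z1, z2, ?_, z4, ?_⟩
    · have h4 : HasDerivAt Φ (deriv Φ z) z :=
        (a1'.Fan.differentiableAt ((isOpen_Rz _ _ _).mem_nhds z2)).hasDerivAt
      have h1 : HasDerivAt (qz Φ) (Complex.I + deriv Φ z) z := by
        unfold qz
        have h2 : HasDerivAt (fun w : ℂ => Complex.I * w) Complex.I z := by
          simpa using (hasDerivAt_id z).const_mul Complex.I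
        exact h2.add h4
      rw [h1.deriv] at z3
      rw [← z3]
      push_cast
      ring
    · have hE0 : ∀ (N : ℕ) (φ : ℂ), Ea 0 N φ = 1 := by
        intro N φ
        unfold Ea
        simp
      have hq : qq 0 Φ z = qz Φ z := by
        simp only [qz, qq]
        push_cast
        ring
      simp only [hE0, one_mul, hq]
      exact z5

/-- job AX9: the hubs of weight zero, with expansions, also as the root -/
theorem krx_hub {k : ℕ} (hk : 3 ≤ k) : ∃ (S : ℂ → ℂ → ℂ) (r c C : ℝ) (dl : ℂ → ℂ → ℂ),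
    Pool.Agent.TH563.Z.Adm (et k) ∧ Pool.Agent.TH563.Z.SDZ (et k) r c C S dl ∧
    Pool.Agent.N561.AX.KPRX k 0 (et k * Complex.I) S := by
  obtain ⟨hadm, hgd, hineq⟩ := Pool.Agent.TH596.J367.ineq k hk
  obtain ⟨r, c', C, S, dl, hS⟩ := Pool.Agent.TH822.J362.sdz (et k) hadm
  obtain ⟨ε, hFD, hker⟩ := f_kerv (et k) hadm r c' C S dl hS
  obtain ⟨ρs, hρs, -, hbnd⟩ := Pool.Agent.W711.HT.f_BND
  refine ⟨S, r, c', C, dl, hadm, hS, fun g hg => ?_⟩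
  obtain ⟨ρ, τ, ρ', τ', κ, hZ, -, -, hFG⟩ := hker 1 one_pos
  obtain ⟨ρb, τb, ρ₃, τ₃, -, -, hρ₃, hτ₃, Az, hAz⟩ :=
    Pool.Agent.TH563.Z.f_kxcz (et k) ε ρ τ ρ' τ' κ c' S dl hadm hFD hZ
  obtain ⟨h, hh⟩ := hub_pkg Pool.Agent.TH554.J1743.hc Pool.Agent.TH790.J1744.hx
    Pool.Agent.TH653.J366.rem Pool.Agent.TH653.J366.half hρs hbnd hk hgd hineq hZ hFG hAz
    hρ₃ hτ₃ hg
  exact pkgx hρs hbnd hk hh

end Pool.Agent.N614.AX
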